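import Pool.Agent.Q240.CE.Stm

set_option autoImplicit false

/-!
# Project CE: `S_NB` (helper280)
-/

open Polynomial Filter Topology Finset MeasureTheory

namespace Pool.Agent.Q280.CE

open Pool.Agent.Q240.CE Pool.Agent.Q240.CD Pool.Agent.Q61.CD

theorem Lp_comp {g M : ℕ → ℝ} (hg : ∀ j, 0 ≤ g j) (s : ℝ[X]) :
    Lp g M (s.comp (X ^ 2)) = Lam g M (s * s) := by
  unfold Pool.Agent.Q240.CD.Lp Lam
  refine tsum_congr fun j => ?_
  rw [eval_comp, eval_comp, eval_mul]
  simp only [eval_pow, eval_X, neg_sq, Real.sq_sqrt (hg j)]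
  ring

theorem Op_comp (u : ℝ → ℝ) (s : ℝ[X]) : Op u (s.comp (X ^ 2)) = Oe u s := by
  unfold Op Oe
  refine integral_congr_ae (Eventually.of_forall fun x => ?_)
  simp only [eval_comp, eval_pow, eval_X]

/-- JOB CE-NB -/
theorem nB (hG : S_GapC) : S_NB := by
  intro ι l g μ N M u hF hW q0 hq0
  obtain ⟨c, C0, hc, hC0, hO⟩ := a_oeb l g μ N M u hF hW q0 hq0
  refine ⟨4 * C0, by positivity, ?_⟩
  filter_upwards [hO, hG l g μ N M u hF hW q0 hq0 (4 / c), hq0, hF.pm, hW.int]
    with i hOi hGi hqi hpm hint q hq hle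
  obtain ⟨δ, hδd⟩ : ∃ δ, δ = Lam g (M i) (q0 i * q0 i) := ⟨_, rfl⟩
  have hδ : 0 < δ := by rw [hδd]; exact delta_pos hpm hqi
  rw [← hδd] at hle
  obtain ⟨a, ha⟩ : ∃ a, a = q.eval 0 := ⟨_, rfl⟩
  obtain ⟨s, hs⟩ : ∃ s : ℝ[X], s = q - C a * q0 i := ⟨_, rfl⟩
  have hs0 : s.eval 0 = 0 := by
    rw [hs, eval_sub, eval_mul, eval_C, hqi.2.1, ← ha]
    ring
  have hsd : s.natDegree ≤ N i := by
    rw [hs]
    refine (natDegree_sub_le _ _).trans (max_le hq ?_)
    exact (natDegree_C_mul_le _ _).trans hqi.1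
  have hqs : q = C a * q0 i + s := by rw [hs]; ring
  rw [← ha]
  have hn := hW.nonneg i
  have hcont := hW.cont i
  have iq : Integrable fun x => q.eval (x ^ 2) ^ 2 * u i x := int_Oe hn hcont hint q hq
  have i0 : Integrable fun x => (q0 i).eval (x ^ 2) ^ 2 * u i x := int_Oe hn hcont hint _ hqi.1
  have is : Integrable fun x => s.eval (x ^ 2) ^ 2 * u i x := int_Oe hn hcont hint s hsd
  have hup : Oe (u i) q ≤ 2 * a ^ 2 * Oe (u i) (q0 i) + 2 * Oe (u i) s := by
    unfold Oe
    rw [← integral_const_mul, ← integral_const_mul, ← integral_add (i0.const_mul _)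
      (is.const_mul _)]
    refine integral_mono iq ((i0.const_mul _).add (is.const_mul _)) fun x => ?_
    change q.eval (x ^ 2) ^ 2 * u i x ≤ 2 * a ^ 2 * ((q0 i).eval (x ^ 2) ^ 2 * u i x) +
      2 * (s.eval (x ^ 2) ^ 2 * u i x)
    have h1 : q.eval (x ^ 2) = a * (q0 i).eval (x ^ 2) + s.eval (x ^ 2) := by
      conv_lhs => rw [hqs]
      rw [eval_add, eval_mul, eval_C]
    rw [h1]
    have h2 : (a * (q0 i).eval (x ^ 2) + s.eval (x ^ 2)) ^ 2 ≤
        2 * a ^ 2 * (q0 i).eval (x ^ 2) ^ 2 + 2 * s.eval (x ^ 2) ^ 2 := by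
      nlinarith [sq_nonneg (a * (q0 i).eval (x ^ 2) - s.eval (x ^ 2))]
    calc _ ≤ (2 * a ^ 2 * (q0 i).eval (x ^ 2) ^ 2 + 2 * s.eval (x ^ 2) ^ 2) * u i x :=
          mul_le_mul_of_nonneg_right h2 (hn x)
      _ = _ := by ring
  have hs4 : Oe (u i) s ≤ Oe (u i) q / 4 := by
    by_cases hsz : s = 0
    · rw [hsz]
      have h1 : Oe (u i) (0 : ℝ[X]) = 0 := by
        unfold Oe
        simp
      rw [h1]
      have h2 : 0 ≤ Oe (u i) q := integral_nonneg fun x => mul_nonneg (sq_nonneg _) (hn x)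
      linarith
    · have hP0 : s.comp (X ^ 2 : ℝ[X]) ≠ 0 := by
        intro h0
        apply hsz
        have h1 : (Polynomial.expand ℝ 2) s = 0 := by
          rw [Polynomial.expand_eq_comp_X_pow]
          exact h0
        exact (Polynomial.expand_eq_zero (by norm_num)).1 h1
      have hPd : (s.comp (X ^ 2 : ℝ[X])).natDegree ≤ 2 * N i := by
        rw [natDegree_comp, natDegree_X_pow]
        omega
      have hPe : (s.comp (X ^ 2 : ℝ[X])).eval 0 = 0 := by
        rw [eval_comp]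
        simp [hs0]
      have h1 := hGi _ hP0 hPd hPe
      rw [Lp_comp (fun j => (g_pos hpm j).le), Op_comp, ← hδd] at h1
      -- orthogonality
      obtain ⟨r, hr⟩ : ∃ r : ℝ[X], s = X * r := by
        have : (X : ℝ[X]) ∣ s := by
          rw [Polynomial.X_dvd_iff, Polynomial.coeff_zero_eq_eval_zero]
          exact hs0
        exact this
      have hr0 : r ≠ 0 := by
        rintro rfl
        rw [mul_zero] at hr
        exact hsz hr
      have hrd : r.natDegree + 1 ≤ N i := by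
        have h2 : (X * r).natDegree = r.natDegree + 1 := by
          rw [mul_comm, natDegree_mul_X hr0]
        rw [← h2, ← hr]
        exact hsd
      have h2 := Lam_orth hpm hqi a r hrd
      rw [← hr, ← hqs, ← hδd] at h2
      have h3 : Lam g (M i) (s * s) ≤ Lam g (M i) (q * q) := by
        rw [h2]
        have : 0 ≤ a ^ 2 * δ := by positivity
        linarith
      have h4 : Lam g (M i) (q * q) * c ≤ δ * Oe (u i) q := by
        refine le_trans (mul_le_mul_of_nonneg_left hOi.1 ?_) hle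
        have h5 : 0 ≤ Lam g (M i) (s * s) := by
          refine Pool.Agent.Q61.CD.Lam_nonneg hpm _ fun j => ?_
          rw [eval_mul]
          exact mul_self_nonneg _
        linarith
      have h5 : 4 / c * δ * Oe (u i) s * c ≤ δ * Oe (u i) q :=
        le_trans (mul_le_mul_of_nonneg_right (h1.le.trans h3) hc.le) h4
      have h6 : 4 / c * δ * Oe (u i) s * c = δ * (4 * Oe (u i) s) := by
        field_simp
      rw [h6] at h5
      have h7 := le_of_mul_le_mul_left h5 hδ
      linarith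
  have h8 : 2 * a ^ 2 * Oe (u i) (q0 i) ≤ 2 * a ^ 2 * C0 :=
    mul_le_mul_of_nonneg_left hOi.2 (by positivity)
  linarith

end Pool.Agent.Q280.CE
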