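import Pool.Agent.Q240.CE.Stm

set_option autoImplicit false

/-!
# Project CE: `S_SumG`, `S_CntG` (helper280)
-/

open Filter Topology Finset

namespace Pool.Agent.Q280.CE

open Pool.Agent.Q240.CE Pool.Agent.Y23.G

/-- summability over the zeros of a function which is bounded by a function of the integer part of the ordinate -/
lemma sum_gen [D : ZD] (φ : ℤ → ℝ) (hφ : ∀ k, 0 ≤ φ k) (hs : Summable (fun k : ℤ => Lg k * φ k))
    (F : Zt → ℝ) (hF0 : ∀ ρ, 0 ≤ F ρ) (hF : ∀ ρ : Zt, F ρ ≤ φ ⌊(ρ : ℂ).im⌋) :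
    Summable (fun ρ : Zt => (mu (ρ : ℂ) : ℝ) * F ρ) := by
  classical
  obtain ⟨C, hC, hcnt⟩ := cnt
  have hL : ∀ k : ℤ, 0 ≤ Lg (k : ℝ) := fun k => by linarith [one_le_Lg (k : ℝ)]
  refine summable_of_sum_le (c := C * ∑' k : ℤ, Lg k * φ k)
    (fun ρ => mul_nonneg (Nat.cast_nonneg _) (hF0 ρ)) fun S => ?_
  have h1 : ∑ ρ ∈ S, (mu (ρ : ℂ) : ℝ) * F ρ ≤ ∑ ρ ∈ S, (mu (ρ : ℂ) : ℝ) * φ ⌊(ρ : ℂ).im⌋ :=
    Finset.sum_le_sum fun ρ _ => mul_le_mul_of_nonneg_left (hF ρ) (Nat.cast_nonneg _)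
  have h2 : ∑ ρ ∈ S, (mu (ρ : ℂ) : ℝ) * φ ⌊(ρ : ℂ).im⌋ =
      ∑ k ∈ S.image (fun ρ : Zt => ⌊(ρ : ℂ).im⌋),
      ∑ ρ ∈ S.filter (fun ρ : Zt => ⌊(ρ : ℂ).im⌋ = k), (mu (ρ : ℂ) : ℝ) * φ ⌊(ρ : ℂ).im⌋ :=
    (Finset.sum_fiberwise_of_maps_to (fun s hs => Finset.mem_image_of_mem _ hs) _).symm
  have h3 : ∀ k ∈ S.image (fun ρ : Zt => ⌊(ρ : ℂ).im⌋),
      ∑ ρ ∈ S.filter (fun ρ : Zt => ⌊(ρ : ℂ).im⌋ = k), (mu (ρ : ℂ) : ℝ) * φ ⌊(ρ : ℂ).im⌋ ≤
        C * (Lg k * φ k) := by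
    intro k _
    have h4 : ∑ ρ ∈ S.filter (fun ρ : Zt => ⌊(ρ : ℂ).im⌋ = k),
        (mu (ρ : ℂ) : ℝ) * φ ⌊(ρ : ℂ).im⌋ =
        (∑ ρ ∈ S.filter (fun ρ : Zt => ⌊(ρ : ℂ).im⌋ = k), (mu (ρ : ℂ) : ℝ)) * φ k := by
      rw [Finset.sum_mul]
      refine Finset.sum_congr rfl fun ρ hρ => ?_
      rw [Finset.mem_filter] at hρ
      rw [hρ.2]
    have h5 := hcnt k ((S.filter (fun ρ : Zt => ⌊(ρ : ℂ).im⌋ = k)).map
      (Function.Embedding.subtype _)) (by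
      intro s hs
      rw [Finset.mem_map] at hs
      obtain ⟨u, hu, rfl⟩ := hs
      rw [Finset.mem_filter] at hu
      refine ⟨u.2, ?_⟩
      have h6 := Int.floor_le (u : ℂ).im
      have h7 := Int.lt_floor_add_one (u : ℂ).im
      rw [hu.2] at h6 h7
      show |(u : ℂ).im - k| ≤ 1
      rw [abs_le]
      constructor <;> linarith)
    rw [Finset.sum_map] at h5
    have h6 : (∑ ρ ∈ S.filter (fun ρ : Zt => ⌊(ρ : ℂ).im⌋ = k), (mu (ρ : ℂ) : ℝ)) ≤ C * Lg k := by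
      have e : ((∑ ρ ∈ S.filter (fun ρ : Zt => ⌊(ρ : ℂ).im⌋ = k),
          mu ((Function.Embedding.subtype _) ρ) : ℕ) : ℝ) =
          ∑ ρ ∈ S.filter (fun ρ : Zt => ⌊(ρ : ℂ).im⌋ = k), (mu (ρ : ℂ) : ℝ) := by
        push_cast
        rfl
      rw [← e]; exact h5
    rw [h4]
    calc _ ≤ (C * Lg k) * φ k := mul_le_mul_of_nonneg_right h6 (hφ k)
      _ = _ := by ring
  have h4 : ∑ k ∈ S.image (fun ρ : Zt => ⌊(ρ : ℂ).im⌋), C * (Lg k * φ k) ≤
      C * ∑' k : ℤ, Lg k * φ k := by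
    rw [← Finset.mul_sum]
    exact mul_le_mul_of_nonneg_left (hs.sum_le_tsum _ fun k _ => mul_nonneg (hL k) (hφ k)) hC.le
  calc _ ≤ _ := h1
    _ = _ := h2
    _ ≤ _ := Finset.sum_le_sum h3
    _ ≤ _ := h4

lemma floor_le_zp [D : ZD] (ρ : Zt) :
    1 + |((⌊(ρ : ℂ).im⌋ : ℤ) : ℝ)| ≤ 2 * (1 + ‖(ρ : ℂ) - 1 / 2‖) := by
  have h1 := Complex.abs_im_le_norm ((ρ : ℂ) - 1 / 2)
  have e : ((ρ : ℂ) - 1 / 2).im = (ρ : ℂ).im := by simp
  rw [e] at h1
  have h2 := Int.floor_le (ρ : ℂ).im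
  have h3 := Int.lt_floor_add_one (ρ : ℂ).im
  have h4 : |((⌊(ρ : ℂ).im⌋ : ℤ) : ℝ)| ≤ |(ρ : ℂ).im| + 1 := by
    rw [abs_le]
    constructor
    · have := neg_abs_le (ρ : ℂ).im
      linarith
    · have := le_abs_self (ρ : ℂ).im
      linarith
  have := norm_nonneg ((ρ : ℂ) - 1 / 2)
  linarith

lemma summable_int_54 : Summable (fun k : ℤ => (1 + |(k : ℝ)|) ^ (-(5 / 4 : ℝ))) := by
  have h1 : Summable (fun j : ℤ => |(j : ℝ)| ^ (-(5 / 4 : ℝ))) :=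
    Real.summable_abs_int_rpow (by norm_num)
  have h2 : Summable (fun j : ℤ => |(j : ℝ)| ^ (-(5 / 4 : ℝ)) + if j = 0 then (1 : ℝ) else 0) := by
    refine h1.add ?_
    exact summable_of_ne_finset_zero (s := {0}) fun b hb => by
      rw [Finset.mem_singleton] at hb
      rw [if_neg hb]
  refine Summable.of_nonneg_of_le (fun j => by positivity) (fun j => ?_) h2
  by_cases hj : j = 0
  · subst hj
    have h3 : 0 ≤ |((0 : ℤ) : ℝ)| ^ (-(5 / 4 : ℝ)) := by positivity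
    simp only [if_true]
    have h4 : (1 + |((0 : ℤ) : ℝ)|) ^ (-(5 / 4 : ℝ)) = 1 := by simp
    rw [h4]; linarith
  · rw [if_neg hj, add_zero]
    have hj1 : (1 : ℝ) ≤ |(j : ℝ)| := by
      have := Int.one_le_abs hj
      exact_mod_cast this
    exact Real.rpow_le_rpow_of_nonpos (by linarith) (by linarith) (by norm_num)

lemma sumZ1 [D : ZD] :
    Summable fun ρ : Zt => (mu (ρ : ℂ) : ℝ) / (1 + ‖(ρ : ℂ) - 1 / 2‖) ^ (7 / 4 : ℝ) := by
  have h := sum_gen (fun k => 4 * (1 + |(k : ℝ)|) ^ (-(7 / 4 : ℝ))) (fun k => by positivity) ?_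
    (fun ρ => ((1 + ‖(ρ : ℂ) - 1 / 2‖) ^ (7 / 4 : ℝ))⁻¹) (fun ρ => by positivity) ?_
  · exact h.congr fun ρ => (div_eq_mul_inv _ _).symm
  · refine Summable.of_nonneg_of_le (fun k => ?_) (fun k => ?_) (summable_int_54.mul_left 16)
    · have := one_le_Lg (k : ℝ)
      positivity
    · have h1 := Lg_le k
      have h2 : 0 < 1 + |(k : ℝ)| := by positivity
      have h3 : (1 + |(k : ℝ)|) ^ (1 / 2 : ℝ) * (1 + |(k : ℝ)|) ^ (-(7 / 4 : ℝ)) =
          (1 + |(k : ℝ)|) ^ (-(5 / 4 : ℝ)) := by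
        rw [← Real.rpow_add h2]; norm_num
      calc Lg k * (4 * (1 + |(k : ℝ)|) ^ (-(7 / 4 : ℝ))) ≤
          (4 * (1 + |(k : ℝ)|) ^ (1 / 2 : ℝ)) * (4 * (1 + |(k : ℝ)|) ^ (-(7 / 4 : ℝ))) :=
            mul_le_mul_of_nonneg_right h1 (by positivity)
        _ = 16 * ((1 + |(k : ℝ)|) ^ (1 / 2 : ℝ) * (1 + |(k : ℝ)|) ^ (-(7 / 4 : ℝ))) := by ring
        _ = _ := by rw [h3]
  · intro ρ
    have h1 := floor_le_zp ρ
    set K : ℝ := 1 + |((⌊(ρ : ℂ).im⌋ : ℤ) : ℝ)| with hK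
    have hK0 : 0 < K := by positivity
    have hz : 0 < 1 + ‖(ρ : ℂ) - 1 / 2‖ := by positivity
    have h2 : K ^ (7 / 4 : ℝ) ≤ 4 * (1 + ‖(ρ : ℂ) - 1 / 2‖) ^ (7 / 4 : ℝ) := by
      calc K ^ (7 / 4 : ℝ) ≤ (2 * (1 + ‖(ρ : ℂ) - 1 / 2‖)) ^ (7 / 4 : ℝ) :=
            Real.rpow_le_rpow hK0.le h1 (by norm_num)
        _ = 2 ^ (7 / 4 : ℝ) * (1 + ‖(ρ : ℂ) - 1 / 2‖) ^ (7 / 4 : ℝ) :=
            Real.mul_rpow (by norm_num) hz.le
        _ ≤ _ := by
            refine mul_le_mul_of_nonneg_right ?_ (by positivity)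
            calc (2 : ℝ) ^ (7 / 4 : ℝ) ≤ 2 ^ (2 : ℝ) :=
                  Real.rpow_le_rpow_of_exponent_le (by norm_num) (by norm_num)
              _ = 4 := by norm_num
    show ((1 + ‖(ρ : ℂ) - 1 / 2‖) ^ (7 / 4 : ℝ))⁻¹ ≤ 4 * K ^ (-(7 / 4 : ℝ))
    rw [Real.rpow_neg hK0.le, ← div_eq_mul_inv, inv_eq_one_div,
      div_le_div_iff₀ (by positivity) (by positivity)]
    linarith

lemma sumZ2 [D : ZD] : Summable fun ρ : Zt => (mu (ρ : ℂ) : ℝ) / (1 + ‖(ρ : ℂ) - 1 / 2‖) ^ 2 := by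
  refine Summable.of_nonneg_of_le (fun ρ => by positivity) (fun ρ => ?_) sumZ1
  have hz : 1 ≤ 1 + ‖(ρ : ℂ) - 1 / 2‖ := by linarith [norm_nonneg ((ρ : ℂ) - 1 / 2)]
  refine div_le_div_of_nonneg_left (Nat.cast_nonneg _) (by positivity) ?_
  rw [← Real.rpow_natCast]
  exact Real.rpow_le_rpow_of_exponent_le hz (by norm_num)

/-- JOB CE-SumG -/
theorem sumG : S_SumG := by
  intro D
  refine ⟨sumZ1, sumZ2, fun T => ?_⟩
  rcases lt_or_ge T 0 with hT | hT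
  · have h0 : {s : ℂ | s ∈ D.Zs ∧ ‖s - 1 / 2‖ ≤ T} = ∅ := by
      ext s
      simp only [Set.mem_ofPred_eq, Set.mem_empty_iff_false, iff_false, not_and, not_le]
      intro _
      exact lt_of_lt_of_le hT (norm_nonneg _)
    rw [h0]
    exact Set.finite_empty
  have h1 := (sumZ2 (D := D)).tendsto_cofinite_zero
  have h2 : 0 < 1 / (1 + T) ^ 2 := by positivity
  have h3 := h1.eventually (gt_mem_nhds h2)
  rw [Filter.eventually_cofinite] at h3
  have h4 : {s : ℂ | s ∈ D.Zs ∧ ‖s - 1 / 2‖ ≤ T} ⊆ (fun ρ : Zt => (ρ : ℂ)) ''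
      {ρ : Zt | ¬ (mu (ρ : ℂ) : ℝ) / (1 + ‖(ρ : ℂ) - 1 / 2‖) ^ 2 < 1 / (1 + T) ^ 2} := by
    rintro s ⟨hs, hsT⟩
    refine ⟨⟨s, hs⟩, ?_, rfl⟩
    change ¬ (mu s : ℝ) / (1 + ‖s - 1 / 2‖) ^ 2 < 1 / (1 + T) ^ 2
    rw [not_lt]
    have hm : (1 : ℝ) ≤ mu s := by exact_mod_cast D.mpos s hs
    have h0 := norm_nonneg (s - 1 / 2)
    exact div_le_div₀ (by positivity) hm (by positivity)
      (pow_le_pow_left₀ (by positivity) (by linarith) 2)
  exact (h3.image _).subset h4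

/-- JOB CE-CntG -/
theorem cntG : S_CntG := by
  classical
  intro D γ hγ h0 hz
  obtain ⟨C, hC, hcnt⟩ := cnt (D := D)
  have hmono : Monotone γ := hγ.monotone
  have hpos : ∀ j, 0 < γ j := fun j => lt_of_lt_of_le h0 (hmono (Nat.zero_le j))
  obtain ⟨C', hC'⟩ : ∃ C', C' = C * (1 + 1 / γ 0) := ⟨_, rfl⟩
  have hC'0 : 0 < C' := by rw [hC']; positivity
  have key : ∀ j : ℕ, ((j : ℝ) + 1) ≤ C' * γ j * Real.log (3 + γ j) := by
    intro j
    obtain ⟨z, hzd⟩ : ∃ z : ℕ → ℂ, z = fun i => 1 / 2 + Complex.I * (γ i : ℂ) := ⟨_, rfl⟩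
    have him : ∀ i, (z i).im = γ i := by
      intro i
      rw [hzd]
      simp
    have hinj : Function.Injective z := by
      intro a b hab
      have := congrArg Complex.im hab
      rw [him, him] at this
      exact hγ.injective this
    obtain ⟨N, hN⟩ : ∃ N : ℕ, N = ⌊γ j⌋₊ := ⟨_, rfl⟩
    have h1 : ∀ i ∈ range (j + 1), ⌊γ i⌋₊ ∈ range (N + 1) := by
      intro i hi
      rw [Finset.mem_range] at hi ⊢
      rw [hN]
      exact Nat.lt_succ_of_le (Nat.floor_mono (hmono (by omega)))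
    have h2 := Finset.card_eq_sum_card_fiberwise h1
    rw [Finset.card_range] at h2
    have h3 : ∀ k ∈ range (N + 1),
        ((#{i ∈ range (j + 1) | ⌊γ i⌋₊ = k} : ℕ) : ℝ) ≤ C * Lg (γ j) := by
      intro k hk
      have h4 := hcnt k ({i ∈ range (j + 1) | ⌊γ i⌋₊ = k}.map ⟨z, hinj⟩) (by
        intro s hs
        rw [Finset.mem_map] at hs
        obtain ⟨i, hi, rfl⟩ := hs
        rw [Finset.mem_filter] at hi
        refine ⟨by
          change z i ∈ D.Zs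
          rw [hzd]
          exact hz i, ?_⟩
        change |(z i).im - k| ≤ 1
        rw [him]
        have h5 := Nat.floor_le (hpos i).le
        have h6 := Nat.lt_floor_add_one (γ i)
        rw [hi.2] at h5 h6
        rw [abs_le]
        constructor <;> linarith)
      rw [Finset.sum_map] at h4
      have h5 : (#{i ∈ range (j + 1) | ⌊γ i⌋₊ = k} : ℕ) ≤
          ∑ i ∈ range (j + 1) with ⌊γ i⌋₊ = k, mu (z i) := by
        rw [Finset.card_eq_sum_ones]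
        refine Finset.sum_le_sum fun i _ => ?_
        have : z i ∈ D.Zs := by
          rw [hzd]
          exact hz i
        exact D.mpos _ this
      have h6 : ((#{i ∈ range (j + 1) | ⌊γ i⌋₊ = k} : ℕ) : ℝ) ≤
          ((∑ i ∈ range (j + 1) with ⌊γ i⌋₊ = k, mu (z i) : ℕ) : ℝ) := by exact_mod_cast h5
      refine h6.trans (h4.trans ?_)
      refine mul_le_mul_of_nonneg_left ?_ hC.le
      unfold Lg
      refine Real.log_le_log (by positivity) ?_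
      rw [Nat.abs_cast, abs_of_pos (hpos j)]
      have h7 : (k : ℝ) ≤ N := by
        exact_mod_cast Nat.lt_succ_iff.1 (Finset.mem_range.1 hk)
      have h8 : (N : ℝ) ≤ γ j := by
        rw [hN]
        exact Nat.floor_le (hpos j).le
      linarith
    have h4 : ((j : ℝ) + 1) ≤ (N + 1) * (C * Lg (γ j)) := by
      have h5 : ((j + 1 : ℕ) : ℝ) = ∑ k ∈ range (N + 1),
          ((#{i ∈ range (j + 1) | ⌊γ i⌋₊ = k} : ℕ) : ℝ) := by
        have h6 := congrArg (fun m : ℕ => (m : ℝ)) h2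
        simp only [Nat.cast_sum] at h6
        exact h6
      push_cast at h5
      rw [h5]
      refine (Finset.sum_le_sum h3).trans (le_of_eq ?_)
      rw [Finset.sum_const, Finset.card_range, nsmul_eq_mul]
      push_cast
      ring
    have hLg : Lg (γ j) = Real.log (3 + γ j) := by
      unfold Lg
      rw [abs_of_pos (hpos j)]
    rw [hLg] at h4
    have hlog : 0 ≤ Real.log (3 + γ j) := Real.log_nonneg (by linarith [hpos j])
    have h6 : (N : ℝ) + 1 ≤ (1 + 1 / γ 0) * γ j := by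
      have h8 : (N : ℝ) ≤ γ j := by
        rw [hN]
        exact Nat.floor_le (hpos j).le
      have h9 : 1 ≤ 1 / γ 0 * γ j := by
        rw [one_div_mul_eq_div, le_div_iff₀ h0, one_mul]
        exact hmono (Nat.zero_le j)
      linarith
    calc ((j : ℝ) + 1) ≤ (N + 1) * (C * Real.log (3 + γ j)) := h4
      _ ≤ ((1 + 1 / γ 0) * γ j) * (C * Real.log (3 + γ j)) :=
          mul_le_mul_of_nonneg_right h6 (by positivity)
      _ = _ := by rw [hC']; ring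
  obtain ⟨c0, hc0⟩ : ∃ c0, c0 = min (1 / C') (min (1 / 2) (γ 0)) := ⟨_, rfl⟩
  have hc1 : c0 ≤ 1 / C' := by rw [hc0]; exact min_le_left _ _
  have hc2 : c0 ≤ 1 / 2 := by rw [hc0]; exact (min_le_right _ _).trans (min_le_left _ _)
  have hc3 : c0 ≤ γ 0 := by rw [hc0]; exact (min_le_right _ _).trans (min_le_right _ _)
  have hcpos : 0 < c0 := by
    rw [hc0]
    exact lt_min (by positivity) (lt_min (by norm_num) h0)
  refine ⟨c0, hcpos, fun j => ?_⟩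
  have hlog1 : 1 ≤ Real.log ((j : ℝ) + 3) := by
    rw [Real.le_log_iff_exp_le (by positivity)]
    have := Real.exp_one_lt_d9
    have : (0 : ℝ) ≤ j := Nat.cast_nonneg j
    linarith
  rw [div_le_iff₀ (by linarith)]
  have hj0 : (0 : ℝ) ≤ j := Nat.cast_nonneg j
  rcases le_or_gt (γ j) j with h | h
  · have h1 := key j
    have h2 : Real.log (3 + γ j) ≤ Real.log ((j : ℝ) + 3) :=
      Real.log_le_log (by linarith [hpos j]) (by linarith)
    have h3 : c0 * C' ≤ 1 := by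
      rw [← le_div_iff₀ hC'0]
      exact hc1
    calc c0 * ((j : ℝ) + 1) ≤ c0 * (C' * γ j * Real.log (3 + γ j)) :=
          mul_le_mul_of_nonneg_left h1 hcpos.le
      _ = (c0 * C') * (γ j * Real.log (3 + γ j)) := by ring
      _ ≤ 1 * (γ j * Real.log (3 + γ j)) := by
          refine mul_le_mul_of_nonneg_right h3 ?_
          exact mul_nonneg (hpos j).le (Real.log_nonneg (by linarith [hpos j]))
      _ ≤ γ j * Real.log ((j : ℝ) + 3) := by
          rw [one_mul]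
          exact mul_le_mul_of_nonneg_left h2 (hpos j).le
  · have h1 : c0 * ((j : ℝ) + 1) ≤ γ j := by
      rcases Nat.eq_zero_or_pos j with hj | hj
      · rw [hj]
        simpa using hc3
      · have hj1 : (1 : ℝ) ≤ j := by exact_mod_cast hj
        calc c0 * ((j : ℝ) + 1) ≤ 1 / 2 * (j + 1) := mul_le_mul_of_nonneg_right hc2 (by linarith)
          _ ≤ γ j := by linarith
    calc c0 * ((j : ℝ) + 1) ≤ γ j * 1 := by linarith
      _ ≤ γ j * Real.log ((j : ℝ) + 3) := mul_le_mul_of_nonneg_left hlog1 (hpos j).le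

end Pool.Agent.Q280.CE
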